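import Mathlib
import Pool.Agent.H12.Ruler

set_option autoImplicit false

namespace Pool.Agent.Results.MP_2232d5_co.Unique

/-- the Zimin words -/
def Z : ℕ → List ℕ
  | 0 => []
  | k + 1 => Z k ++ k :: Z k

/-- `x` begins with every Zimin word: `x` is the ruler sequence -/
def IsRuler (x : ℕ → ℕ) : Prop := ∀ k, (List.range (Z k).length).map x = Z k

/-- no factor `uu` with `u` nonempty -/
def SqFree (y : ℕ → ℕ) : Prop :=
  ∀ i p : ℕ, 0 < p → ¬ ∀ h < p, y (i + h) = y (i + p + h)

/-- initial non-repetitive complexity, with value `⊤` when the set is unbounded -/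
noncomputable def nsc (y : ℕ → ℕ) (n : ℕ) : ℕ∞ :=
  ⨆ m ∈ {m : ℕ | ∀ i j : ℕ, i < j → j < m → ¬ ∀ h < n, y (i + h) = y (j + h)}, (m : ℕ∞)

open Pool.Agent.H12.Ruler

theorem Z_len (k : ℕ) : (Z k).length + 1 = 2 ^ k := by
  induction k with
  | zero => rfl
  | succ k ih => simp only [Z, List.length_append, List.length_cons, pow_succ]; omega

theorem Z_get (k : ℕ) : ∀ i, i + 1 < 2 ^ k → (Z k)[i]? = some (v (i + 1)) := by
  induction k with
  | zero => intro i h; omega
  | succ k ih =>
    intro i h
    have hl := Z_len k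
    rw [pow_succ] at h
    rcases lt_trichotomy (i + 1) (2 ^ k) with a | a | a
    · rw [Z, List.getElem?_append_left (by omega)]
      exact ih i a
    · rw [Z, List.getElem?_append_right (by omega), show i - (Z k).length = 0 by omega, a, v_pow]
      rfl
    · rw [Z, List.getElem?_append_right (by omega),
        show i - (Z k).length = (i - 2 ^ k) + 1 by omega, List.getElem?_cons_succ,
        ih _ (by omega)]
      have := v_add (B := 2 ^ k) (h := i - 2 ^ k + 1) (b := k) dvd_rfl (by omega) (by omega)
      rw [← this]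
      congr 2
      omega

theorem ruler_eq {x : ℕ → ℕ} (hx : IsRuler x) (i : ℕ) : x i = v (i + 1) := by
  have h1 : i + 1 < 2 ^ (i + 1) := Nat.lt_two_pow_self
  have h2 := Z_get (i + 1) i h1
  have hl := Z_len (i + 1)
  rw [← hx (i + 1), List.getElem?_map, List.getElem?_range (by omega)] at h2
  simpa using h2

theorem result (x y : ℕ → ℕ) (hx : IsRuler x) (hy : SqFree y)
    (hn : ∀ n : ℕ, 1 ≤ n → nsc y n ≤ (2 * n : ℕ)) :
    (∃ σ : ℕ → ℕ, Function.Injective σ ∧ y = σ ∘ x) ∧
      ((∃ σ : Equiv.Perm ℕ, y = σ ∘ x) ↔ Function.Surjective y) := by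
  have key : ∀ i j, y i = y j ↔ v (i + 1) = v (j + 1) := by
    intro i j
    have := main (fun m => y (m - 1)) ?_ ?_ (i + j + 1) (i + 1) (j + 1) (by omega)
      (lt_of_le_of_lt (by omega) Nat.lt_two_pow_self) (by omega)
      (lt_of_le_of_lt (by omega) Nat.lt_two_pow_self)
    · simpa using this
    · intro a p hp h
      refine hy a p hp fun t ht => ?_
      have := h (t + 1) (by omega) (by omega)
      simpa [← add_assoc] using this
    · intro n h1
      have h2 := hn n h1
      rw [nsc, iSup₂_le_iff] at h2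
      by_contra hc
      have := h2 (2 * n + 1) (fun i j a b c => hc ⟨i, j, a, by omega, fun t t1 t2 => by
        have := c (t - 1) (by omega)
        rw [show i + t - 1 = i + (t - 1) by omega, show j + t - 1 = j + (t - 1) by omega]
        exact this⟩)
      norm_cast at this
      omega
  have hp : ∀ s : ℕ, 2 ^ s - 1 + 1 = 2 ^ s := fun s => Nat.sub_add_cancel Nat.one_le_two_pow
  have inj : Function.Injective fun s => y (2 ^ s - 1) := by
    intro s t h
    have := (key _ _).1 h
    rwa [hp, hp, v_pow, v_pow] at this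
  have comp : y = (fun s => y (2 ^ s - 1)) ∘ x := by
    funext i
    simp only [Function.comp]
    rw [key, hp, v_pow, ruler_eq hx]
  have xs : Function.Surjective x := fun s => ⟨2 ^ s - 1, by rw [ruler_eq hx, hp, v_pow]⟩
  refine ⟨⟨_, inj, comp⟩, ?_, fun h => ?_⟩
  · rintro ⟨σ, rfl⟩
    exact σ.surjective.comp xs
  · rw [comp] at h
    exact ⟨Equiv.ofBijective _ ⟨inj, h.of_comp⟩, comp⟩

end Pool.Agent.Results.MP_2232d5_co.Unique
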